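/-
helper36. Board ldm_modules (MP_c4ad93_co), row GEN: the lower bound for every order.
-/
import Pool.Agent.H11.LD.Targets

set_option autoImplicit false

namespace Pool.Agent.H36.LD

open Finset Classical
open Pool.Agent.H9.Lap Pool.Agent.H11.LD

theorem mem_nb' {V : Type} [Fintype V] (G : SimpleGraph V) (v w : V) :
    w ∈ nb G v ↔ G.Adj v w := by
  unfold nb
  simp

/-- a nonempty proper vertex set of a connected graph has an edge leaving it -/
theorem exists_edge {V : Type} (G : SimpleGraph V) (hc : G.Connected) (W : V → Prop) (s v : V)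
    (hs : W s) (hv : ¬ W v) : ∃ u z, W u ∧ ¬ W z ∧ G.Adj u z := by
  obtain ⟨p⟩ := hc.preconnected s v
  induction p with
  | nil => exact absurd hs hv
  | cons h p ih =>
    rename_i a b c
    by_cases hb : W b
    · exact ih hb hv
    · exact ⟨a, b, hs, hb, h⟩

theorem key {V : Type} [Fintype V] (G : SimpleGraph V) (m : ℕ) (x : ℝ) (hm : 2 ≤ m)
    (hU : Ub G x) (s u z : V) (hs : (nb G s).card = m - 1) (hu : G.Adj s u) (hz : ¬ G.Adj s z)
    (hzs : z ≠ s) (huz : G.Adj u z) : (m : ℝ) + 1 / (m * (m - 1)) ≤ x := by
  have hm1 : ((m - 1 : ℕ) : ℝ) = (m : ℝ) - 1 := by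
    rw [Nat.cast_sub (by omega)]
    simp
  have hmr : (2 : ℝ) ≤ m := by exact_mod_cast hm
  set f : V → ℝ := fun v => if v = s then (m : ℝ) - 1 else if G.Adj s v then -1 else 0 with hf
  have fs : f s = (m : ℝ) - 1 := by simp [hf]
  have fn : ∀ w, G.Adj s w → f w = -1 := by
    intro w hw
    have : w ≠ s := fun h => G.loopless.irrefl s (h ▸ hw)
    simp [hf, this, hw]
  have fz : f z = 0 := by simp [hf, hzs, hz]
  -- the norm
  have hnorm : ∑ v, f v ^ 2 = (m : ℝ) * (m - 1) := by
    have h1 : ∀ v, f v ^ 2 = (if v = s then ((m : ℝ) - 1) ^ 2 else 0) +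
        (if v ∈ nb G s then (1 : ℝ) else 0) := by
      intro v
      by_cases hv : v = s
      · subst hv
        have : v ∉ nb G v := by
          rw [mem_nb']
          exact G.loopless.irrefl v
        rw [fs]
        simp [this]
      · by_cases hv' : G.Adj s v
        · rw [fn v hv']
          simp [hv, mem_nb', hv']
        · simp [hf, hv, mem_nb', hv']
    rw [Finset.sum_congr rfl fun v _ => h1 v, Finset.sum_add_distrib, Finset.sum_ite_eq']
    simp only [Finset.mem_univ, if_true]
    rw [← Finset.sum_filter, Finset.filter_mem_eq_inter, Finset.univ_inter, Finset.sum_const, hs,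
      nsmul_eq_mul, hm1]
    ring
  -- the quadratic form
  have hL : ∀ v, (if v = s then ((m : ℝ) - 1) * m ^ 2 else 0) +
      (if v ∈ nb G s then (m : ℝ) ^ 2 else 0) + (if v = u then 1 else 0) +
      (if v = z then (1 : ℝ) else 0) ≤ ∑ w ∈ nb G v, (f v - f w) ^ 2 := by
    intro v
    have hus : u ≠ s := fun h => G.loopless.irrefl s (by rw [h] at hu; exact hu)
    have hzu : z ≠ u := fun h => G.loopless.irrefl u (by rw [h] at huz; exact huz)
    by_cases hv : v = s
    · subst hv
      have h0 : v ∉ nb G v := by
        rw [mem_nb']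
        exact G.loopless.irrefl v
      have h1 : ∑ w ∈ nb G v, (f v - f w) ^ 2 = ∑ w ∈ nb G v, (m : ℝ) ^ 2 := by
        refine Finset.sum_congr rfl fun w hw => ?_
        rw [fs, fn w ((mem_nb' G v w).1 hw)]
        ring
      rw [h1, Finset.sum_const, hs, nsmul_eq_mul, hm1]
      simp [h0, hus.symm, hzs.symm]
    · by_cases hv' : G.Adj s v
      · have hsv : s ∈ nb G v := (mem_nb' G v s).2 hv'.symm
        have hvz : v ≠ z := fun h => hz (h ▸ hv')
        by_cases hvu : v = u
        · subst hvu
          have hsz : s ≠ z := hzs.symm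
          have hsub : ({s, z} : Finset V) ⊆ nb G v := by
            intro w hw
            rw [Finset.mem_insert, Finset.mem_singleton] at hw
            rcases hw with rfl | rfl
            · exact hsv
            · exact (mem_nb' G v w).2 huz
          have h2 : (f v - f s) ^ 2 + (f v - f z) ^ 2 ≤ ∑ w ∈ nb G v, (f v - f w) ^ 2 := by
            have := Finset.sum_le_sum_of_subset_of_nonneg hsub
              (f := fun w => (f v - f w) ^ 2) (fun w _ _ => sq_nonneg _)
            rwa [Finset.sum_pair hsz] at this
          have h3 : v ∈ nb G s := (mem_nb' G s v).2 hv'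
          simp only [hv, h3, hvz, if_true, if_false]
          refine le_trans (le_of_eq ?_) h2
          rw [fs, fz, fn v hv']
          ring
        · have h2 : (f v - f s) ^ 2 ≤ ∑ w ∈ nb G v, (f v - f w) ^ 2 :=
            Finset.single_le_sum (f := fun w => (f v - f w) ^ 2) (fun w _ => sq_nonneg _) hsv
          have h3 : v ∈ nb G s := (mem_nb' G s v).2 hv'
          simp only [hv, h3, hvz, hvu, if_true, if_false]
          refine le_trans (le_of_eq ?_) h2
          rw [fs, fn v hv']
          ring
      · have h3 : v ∉ nb G s := fun h => hv' ((mem_nb' G s v).1 h)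
        have hvu : v ≠ u := fun h => hv' (h ▸ hu)
        by_cases hvz : v = z
        · subst hvz
          have huv : u ∈ nb G v := (mem_nb' G v u).2 huz.symm
          have h2 : (f v - f u) ^ 2 ≤ ∑ w ∈ nb G v, (f v - f w) ^ 2 :=
            Finset.single_le_sum (f := fun w => (f v - f w) ^ 2) (fun w _ => sq_nonneg _) huv
          simp only [hv, h3, hvu, if_true, if_false]
          refine le_trans (le_of_eq ?_) h2
          rw [fz, fn u hu]
          ring
        · simp only [hv, h3, hvu, hvz, if_false]
          refine le_trans (le_of_eq ?_) (Finset.sum_nonneg fun w _ => sq_nonneg _)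
          ring
  have hqf : ((m : ℝ) - 1) * m ^ 2 + 1 ≤ qf G f := by
    unfold qf
    have h1 := Finset.sum_le_sum fun v (_ : v ∈ (univ : Finset V)) => hL v
    rw [Finset.sum_add_distrib, Finset.sum_add_distrib, Finset.sum_add_distrib,
      Finset.sum_ite_eq', Finset.sum_ite_eq', Finset.sum_ite_eq'] at h1
    simp only [Finset.mem_univ, if_true] at h1
    rw [← Finset.sum_filter, Finset.filter_mem_eq_inter, Finset.univ_inter, Finset.sum_const, hs,
      nsmul_eq_mul, hm1] at h1
    linarith
  have h2 := hU f
  rw [hnorm] at h2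
  have hpos : (0 : ℝ) < m * (m - 1) := by nlinarith
  have h3 : (m : ℝ) + 1 / (m * (m - 1)) = (((m : ℝ) - 1) * m ^ 2 + 1) / (m * (m - 1)) := by
    rw [eq_div_iff hpos.ne', add_mul, div_mul_cancel₀ _ hpos.ne']
    ring
  rw [h3, div_le_iff₀ hpos]
  linarith

theorem pf_GEN (hDEG : T_DEG) : T_GEN := by
  intro V _ G g m x hg hm hcard hc hdom hU
  obtain ⟨⟨D, hD, hDc⟩, hleast⟩ := hdom
  have hmr : (2 : ℝ) ≤ m := by exact_mod_cast hm
  -- a vertex of large degree
  have hex : ∃ s ∈ D, m ≤ (nb G s).card + 1 := by
    by_contra hcon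
    push Not at hcon
    have h1 : (univ : Finset V) ⊆ D.biUnion fun s => insert s (nb G s) := by
      intro v _
      rw [Finset.mem_biUnion]
      by_cases hv : v ∈ D
      · exact ⟨v, hv, Finset.mem_insert_self _ _⟩
      · obtain ⟨s, hs, hsv⟩ := hD v hv
        exact ⟨s, hs, Finset.mem_insert_of_mem ((mem_nb' G s v).2 hsv)⟩
    have h2 := Finset.card_le_card h1
    have h3 : (D.biUnion fun s => insert s (nb G s)).card ≤ D.card * (m - 1) := by
      refine Finset.card_biUnion_le_card_mul _ _ _ fun s hs => ?_
      have := hcon s hs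
      have h4 := Finset.card_insert_le s (nb G s)
      omega
    rw [Finset.card_univ] at h2
    rw [hDc] at h3
    omega
  obtain ⟨s, hsD, hs⟩ := hex
  by_cases hbig : m ≤ (nb G s).card
  · have h1 := hDEG V G x hU s (by omega)
    have h2 : (m : ℝ) ≤ (nb G s).card := by exact_mod_cast hbig
    have h3 : 1 / ((m : ℝ) * (m - 1)) ≤ 1 := by
      rw [div_le_one (by nlinarith)]
      nlinarith
    linarith
  · have hcs : (nb G s).card = m - 1 := by omega
    -- a vertex outside the closed neighbourhood
    have hv : ∃ v, ¬ (v = s ∨ G.Adj s v) := by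
      by_contra hcon
      push Not at hcon
      have h1 : g ≤ 1 := by
        refine hleast ⟨{s}, ?_, Finset.card_singleton s⟩
        intro v hv
        rw [Finset.mem_singleton] at hv
        exact ⟨s, Finset.mem_singleton_self s, (hcon v).resolve_left hv⟩
      omega
    obtain ⟨v, hv⟩ := hv
    obtain ⟨u, z, hu, hz, huz⟩ := exists_edge G hc (fun v => v = s ∨ G.Adj s v) s v
      (Or.inl rfl) hv
    rw [not_or] at hz
    rcases hu with rfl | hu
    · exact absurd huz hz.2
    · exact key G m x hm hU s u z hcs hu hz.2 hz.1 huz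

end Pool.Agent.H36.LD
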